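import Pool.Agent.PV3.Stmts

/-!
Squad PV3, module FAC: the faces of a polytope in coordinates.
-/

set_option autoImplicit false

open MeasureTheory Metric Set Filter Topology Pointwise

namespace PV3.H60

open PV PV3 PV.TR

lemma Pl_closed {n : ℕ} (U : Finset (E n)) (c : E n → ℝ) : IsClosed (Pl U c) := by
  have : Pl U c = ⋂ w ∈ U, {x : E n | inner ℝ x w ≤ c w} := by
    ext x; simp [Pl]
  rw [this]
  exact isClosed_biInter fun w _ => isClosed_le (by fun_prop) continuous_const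

lemma Pl_compact {n : ℕ} {U : Finset (E n)} {c : E n → ℝ} (h : Bornology.IsBounded (Pl U c)) :
    IsCompact (Pl U c) := Metric.isCompact_of_isClosed_isBounded (Pl_closed U c) h

lemma coord_cont {n : ℕ} {Z : Type} [NormedAddCommGroup Z] [InnerProductSpace ℝ Z]
    (u ν : E n) (ι : Z →ₗᵢ[ℝ] E n) : Continuous (coord u ν ι) := by
  unfold coord
  have := ι.continuous
  fun_prop

lemma coord_emb {n m : ℕ} {u ν : E n} {ι : E m →ₗᵢ[ℝ] E n} (hu : ‖u‖ = 1)
    (hν : ‖ν‖ = 1) (huν : inner ℝ u ν = 0) (hu' : ∀ z, inner ℝ u (ι z) = 0)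
    (hν' : ∀ z, inner ℝ ν (ι z) = 0) {S : Set (E n)} (hS : IsCompact S) :
    IsCompact (coord u ν ι ⁻¹' S) := by
  have h1 := coord_injective (ι := ι) hu hν huν hu' hν'
  have h2 : IsClosedEmbedding (coordL u ν ι) :=
    LinearMap.isClosedEmbedding_of_injective (LinearMap.ker_eq_bot.2 h1)
  exact h2.isCompact_preimage hS

lemma Pr_compact {n : ℕ} (w : E n) {S : Set (E n)} (hS : IsCompact S) : IsCompact (Pr w S) := by
  have : Pr w S = (fun q : E n × ℝ => proj w q.1 + q.2 • w) '' (S ×ˢ Icc (0 : ℝ) 1) := by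
    ext y
    constructor
    · rintro ⟨x, hx, s, hs, rfl⟩
      exact ⟨(x, s), ⟨hx, hs⟩, rfl⟩
    · rintro ⟨⟨x, s⟩, ⟨hx, hs⟩, rfl⟩
      exact ⟨x, hx, s, hs, rfl⟩
  rw [this]
  refine (hS.prod isCompact_Icc).image ?_
  unfold proj
  fun_prop

lemma Fc_compact {n : ℕ} {U : Finset (E n)} {c : E n → ℝ} (h : Bornology.IsBounded (Pl U c))
    (w : E n) : IsCompact (Fc U c w) := by
  have : Fc U c w = Pl U c ∩ {x | inner ℝ x w = c w} := rfl
  rw [this]
  exact (Pl_compact h).inter_right (isClosed_eq (by fun_prop) continuous_const)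

section

variable {n : ℕ} {V : Finset (E (n + 2))} {c : E (n + 2) → ℝ} {u ν : E (n + 2)}
  {ι : E n →ₗᵢ[ℝ] E (n + 2)}

/-- Inner products in coordinates. -/
lemma coord_inner (p : ℝ × ℝ × E n) (w : E (n + 2)) :
    inner ℝ (coord u ν ι p) w = p.1 * inner ℝ u w + p.2.1 * inner ℝ ν w + inner ℝ (ι p.2.2) w := by
  simp only [coord, inner_add_left, inner_smul_left, conj_trivial]

/-- Two different points of the slice on the top level: the level is `c ν`. -/
lemma top_level (hb : Bornology.IsBounded (Pl V c)) (hu : ‖u‖ = 1)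
    (hν : ‖ν‖ = 1) (huν : inner ℝ u ν = 0) (hu' : ∀ z, inner ℝ u (ι z) = 0)
    (hν' : ∀ z, inner ℝ ν (ι z) = 0) (hνV : ν ∈ V)
    (hgen : ∀ w ∈ V, w ≠ ν → w ≠ -ν → inner ℝ u w ≠ 0) (z : E n) {s₁ s₂ : ℝ}
    (h1 : (s₁, KC.T (KC.slice (coord u ν ι ⁻¹' Pl V c) z) 0) ∈
      KC.slice (coord u ν ι ⁻¹' Pl V c) z)
    (h2 : (s₂, KC.T (KC.slice (coord u ν ι ⁻¹' Pl V c) z) 0) ∈
      KC.slice (coord u ν ι ⁻¹' Pl V c) z) (hne : s₁ ≠ s₂) :
    KC.T (KC.slice (coord u ν ι ⁻¹' Pl V c) z) 0 = c ν := by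
  have hX := coord_emb (ι := ι) hu hν huν hu' hν' (Pl_compact hb)
  have hS := KC.slice_compact hX z
  obtain ⟨T, hT⟩ : ∃ T, T = KC.T (KC.slice (coord u ν ι ⁻¹' Pl V c) z) 0 := ⟨_, rfl⟩
  rw [← hT] at h1 h2 ⊢
  have e1 : ∀ w ∈ V, inner ℝ (coord u ν ι (s₁, T, z)) w ≤ c w := h1
  have e2 : ∀ w ∈ V, inner ℝ (coord u ν ι (s₂, T, z)) w ≤ c w := h2
  have hle : T ≤ c ν := by
    have := e1 ν hνV
    rwa [real_inner_comm, coord_inner_nu hν huν hν'] at this
  by_contra hcon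
  have hlt : T < c ν := lt_of_le_of_ne hle hcon
  have hev : ∀ᶠ ε : ℝ in 𝓝[>] 0, ∀ w ∈ V,
      inner ℝ (coord u ν ι ((s₁ + s₂) / 2, T + ε, z)) w ≤ c w := by
    rw [Filter.eventually_all_finset]
    intro w hw
    have key : inner ℝ (coord u ν ι ((s₁ + s₂) / 2, T, z)) w < c w ∨ inner ℝ ν w ≤ 0 := by
      by_cases hw1 : w = ν
      · left
        rw [hw1, real_inner_comm, coord_inner_nu hν huν hν']
        exact hlt
      · by_cases hw2 : w = -ν
        · right
          rw [hw2, inner_neg_right, real_inner_self_eq_norm_sq, hν]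
          norm_num
        · left
          have h3 := hgen w hw hw1 hw2
          have a1 := e1 w hw
          have a2 := e2 w hw
          rw [coord_inner] at a1 a2 ⊢
          simp only at a1 a2 ⊢
          have h4 : (s₁ - s₂) * inner ℝ u w ≠ 0 := mul_ne_zero (sub_ne_zero.2 hne) h3
          rcases lt_or_gt_of_ne h4 with h5 | h5 <;> nlinarith
    have hexp : ∀ ε : ℝ, inner ℝ (coord u ν ι ((s₁ + s₂) / 2, T + ε, z)) w =
        inner ℝ (coord u ν ι ((s₁ + s₂) / 2, T, z)) w + ε * inner ℝ ν w := by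
      intro ε
      rw [coord_inner, coord_inner]
      simp only
      ring
    rcases key with h | h
    · have hc : Tendsto (fun ε : ℝ => inner ℝ (coord u ν ι ((s₁ + s₂) / 2, T, z)) w +
          ε * inner ℝ ν w) (𝓝[>] 0) (𝓝 (inner ℝ (coord u ν ι ((s₁ + s₂) / 2, T, z)) w +
          0 * inner ℝ ν w)) := by
        refine Tendsto.mono_left ?_ nhdsWithin_le_nhds
        refine Continuous.tendsto ?_ _
        fun_prop
      rw [zero_mul, add_zero] at hc
      filter_upwards [hc.eventually (gt_mem_nhds h)] with ε hε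
      rw [hexp]
      exact hε.le
    · filter_upwards [self_mem_nhdsWithin] with ε hε
      rw [hexp]
      have hm : inner ℝ (coord u ν ι ((s₁ + s₂) / 2, T, z)) w ≤ c w := by
        have a1 := e1 w hw
        have a2 := e2 w hw
        rw [coord_inner] at a1 a2 ⊢
        simp only at a1 a2 ⊢
        nlinarith
      have : ε * inner ℝ ν w ≤ 0 := mul_nonpos_of_nonneg_of_nonpos (le_of_lt hε) h
      linarith
  obtain ⟨ε, hε, hε0⟩ := (hev.and self_mem_nhdsWithin).exists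
  have hmem : ((s₁ + s₂) / 2, T + ε) ∈ KC.slice (coord u ν ι ⁻¹' Pl V c) z := hε
  have := KC.le_T hS 0 hmem
  simp only [zero_mul, sub_zero] at this
  rw [← hT] at this
  have h0 : (0 : ℝ) < ε := hε0
  linarith

/-- The length of the top face as a section of the face. -/
lemma lt_eq (hb : Bornology.IsBounded (Pl V c)) (hu : ‖u‖ = 1)
    (hν : ‖ν‖ = 1) (huν : inner ℝ u ν = 0) (hu' : ∀ z, inner ℝ u (ι z) = 0)
    (hν' : ∀ z, inner ℝ ν (ι z) = 0) (hνV : ν ∈ V)
    (hgen : ∀ w ∈ V, w ≠ ν → w ≠ -ν → inner ℝ u w ≠ 0) (z : E n) :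
    lt (KC.slice (coord u ν ι ⁻¹' Pl V c) z) =
      (volume {s : ℝ | (s, c ν, z) ∈ coord u ν ι ⁻¹' Pl V c}).toReal ∧
    (lt (KC.slice (coord u ν ι ⁻¹' Pl V c) z) ≠ 0 →
      KC.T (KC.slice (coord u ν ι ⁻¹' Pl V c) z) 0 = c ν) := by
  have hX := coord_emb (ι := ι) hu hν huν hu' hν' (Pl_compact hb)
  have hS := KC.slice_compact hX z
  by_cases h : KC.T (KC.slice (coord u ν ι ⁻¹' Pl V c) z) 0 = c ν
  · refine ⟨?_, fun _ => h⟩
    unfold lt
    rw [h]
    rfl
  · have hsub : {s : ℝ | (s, KC.T (KC.slice (coord u ν ι ⁻¹' Pl V c) z) 0) ∈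
        KC.slice (coord u ν ι ⁻¹' Pl V c) z}.Subsingleton := by
      intro s₁ h1 s₂ h2
      by_contra hne
      exact h (top_level hb hu hν huν hu' hν' hνV hgen z h1 h2 hne)
    have h0 : lt (KC.slice (coord u ν ι ⁻¹' Pl V c) z) = 0 := by
      unfold lt
      rw [hsub.measure_zero]
      rfl
    refine ⟨?_, fun h' => absurd h0 h'⟩
    rw [h0]
    have : {s : ℝ | (s, c ν, z) ∈ coord u ν ι ⁻¹' Pl V c} = ∅ := by
      rw [Set.eq_empty_iff_forall_notMem]
      intro s hs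
      have hs' : (s, c ν) ∈ KC.slice (coord u ν ι ⁻¹' Pl V c) z := hs
      have h1 := KC.le_T hS 0 hs'
      simp only [zero_mul, sub_zero] at h1
      obtain ⟨q, hq, hq1, _⟩ := KC.T_exists hS ⟨_, hs'⟩ 0
      have h2 : inner ℝ (coord u ν ι (q.1, q.2, z)) ν ≤ c ν :=
        (show ∀ w ∈ V, inner ℝ (coord u ν ι (q.1, q.2, z)) w ≤ c w from hq) ν hνV
      rw [real_inner_comm, coord_inner_nu hν huν hν'] at h2
      simp only [zero_mul, sub_zero] at hq1
      simp only at h2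
      rw [hq1] at h2
      exact h (le_antisymm h2 h1)
    rw [this]
    simp

/-- One side. -/
lemma side (hb : Bornology.IsBounded (Pl V c)) (hu : ‖u‖ = 1)
    (hν : ‖ν‖ = 1) (huν : inner ℝ u ν = 0) (hu' : ∀ z, inner ℝ u (ι z) = 0)
    (hν' : ∀ z, inner ℝ ν (ι z) = 0) (hνV : ν ∈ V)
    (hgen : ∀ w ∈ V, w ≠ ν → w ≠ -ν → inner ℝ u w ≠ 0)
    (hmp : MeasurePreserving (coord u ν ι)
      ((volume : Measure ℝ).prod ((volume : Measure ℝ).prod (volume : Measure (E n)))) volume) :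
    Integrable (fun z : E n => lt (KC.slice (coord u ν ι ⁻¹' Pl V c) z)) ∧
    (∫ z : E n, lt (KC.slice (coord u ν ι ⁻¹' Pl V c) z) = fa V c ν) := by
  obtain ⟨X, hXdef⟩ : ∃ X, X = coord u ν ι ⁻¹' Pl V c := ⟨_, rfl⟩
  have hX : IsCompact X := by
    rw [hXdef]; exact coord_emb (ι := ι) hu hν huν hu' hν' (Pl_compact hb)
  obtain ⟨Y, hY⟩ : ∃ Y : Set (ℝ × E n), Y = {q | (q.1, c ν, q.2) ∈ X} := ⟨_, rfl⟩
  have hYm : MeasurableSet Y := by
    rw [hY]
    exact (hX.isClosed.preimage (f := fun q : ℝ × E n => (q.1, c ν, q.2))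
      (by fun_prop)).measurableSet
  have hlt : ∀ z : E n, lt (KC.slice (coord u ν ι ⁻¹' Pl V c) z) =
      (volume ((fun s : ℝ => (s, z)) ⁻¹' Y)).toReal := by
    intro z
    rw [(lt_eq hb hu hν huν hu' hν' hνV hgen z).1, hY, hXdef]
    rfl
  have hmeas : Measurable fun z : E n => volume ((fun s : ℝ => (s, z)) ⁻¹' Y) :=
    measurable_measure_prodMk_right hYm
  -- the prism in coordinates
  have hFc := Fc_compact hb ν
  have hPr := Pr_compact ν hFc
  have hpre : coord u ν ι ⁻¹' Pr ν (Fc V c ν) =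
      {p | p.2.1 ∈ Icc (0 : ℝ) 1 ∧ (p.1, p.2.2) ∈ Y} := by
    ext p
    constructor
    · rintro ⟨x, ⟨hx, hxc⟩, s, hs, hp⟩
      have h1 : inner ℝ ν (coord u ν ι p) = p.2.1 := coord_inner_nu hν huν hν' p
      have h2 : inner ℝ ν (proj ν x + s • ν) = s := by
        unfold proj
        rw [inner_add_right, inner_sub_right, inner_smul_right, inner_smul_right,
          real_inner_self_eq_norm_sq, hν, real_inner_comm]
        ring
      rw [hp, h2] at h1
      refine ⟨by rw [← h1]; exact hs, ?_⟩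
      rw [hY]
      show (p.1, c ν, p.2.2) ∈ X
      rw [hXdef]
      show coord u ν ι (p.1, c ν, p.2.2) ∈ Pl V c
      have h3 : coord u ν ι (p.1, c ν, p.2.2) = x := by
        have h4 : coord u ν ι (p.1, c ν, p.2.2) = coord u ν ι p + (c ν - p.2.1) • ν := by
          simp only [coord]
          rw [sub_smul]
          abel
        rw [h4, hp, ← h1]
        unfold proj
        rw [hxc, sub_smul]
        abel
      rw [h3]
      exact hx
    · rintro ⟨h1, h2⟩
      rw [hY] at h2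
      have h3 : coord u ν ι (p.1, c ν, p.2.2) ∈ Pl V c := by
        have : (p.1, c ν, p.2.2) ∈ X := h2
        rw [hXdef] at this
        exact this
      have h4 : inner ℝ (coord u ν ι (p.1, c ν, p.2.2)) ν = c ν := by
        rw [real_inner_comm, coord_inner_nu hν huν hν']
      refine ⟨coord u ν ι (p.1, c ν, p.2.2), ⟨h3, h4⟩, p.2.1, h1, ?_⟩
      unfold proj
      rw [h4]
      simp only [coord]
      abel
  have hvol : volume (Pr ν (Fc V c ν)) = ∫⁻ z : E n, volume ((fun s : ℝ => (s, z)) ⁻¹' Y) := by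
    rw [← hmp.measure_preimage hPr.measurableSet.nullMeasurableSet, hpre]
    have hset : {p : ℝ × ℝ × E n | p.2.1 ∈ Icc (0 : ℝ) 1 ∧ (p.1, p.2.2) ∈ Y} =
        {p : ℝ × ℝ × E n | p.2 ∈ Icc (0 : ℝ) 1 ×ˢ (Prod.mk p.1 ⁻¹' Y)} := by
      ext p; rfl
    have hsm : MeasurableSet {p : ℝ × ℝ × E n | p.2.1 ∈ Icc (0 : ℝ) 1 ∧ (p.1, p.2.2) ∈ Y} := by
      refine MeasurableSet.inter (measurableSet_Icc.preimage (by fun_prop)) (hYm.preimage (by fun_prop))
    rw [Measure.prod_apply hsm]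
    have hinner : ∀ s : ℝ, ((volume : Measure ℝ).prod (volume : Measure (E n)))
        (Prod.mk s ⁻¹' {p : ℝ × ℝ × E n | p.2.1 ∈ Icc (0 : ℝ) 1 ∧ (p.1, p.2.2) ∈ Y}) =
        (volume : Measure (E n)) (Prod.mk s ⁻¹' Y) := by
      intro s
      have : Prod.mk s ⁻¹' {p : ℝ × ℝ × E n | p.2.1 ∈ Icc (0 : ℝ) 1 ∧ (p.1, p.2.2) ∈ Y} =
          Icc (0 : ℝ) 1 ×ˢ (Prod.mk s ⁻¹' Y) := by
        ext p; rfl
      rw [this, Measure.prod_prod, Real.volume_Icc]
      simp
    simp_rw [hinner]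
    rw [← Measure.prod_apply hYm, Measure.prod_apply_symm hYm]
  have hfin : ∫⁻ z : E n, volume ((fun s : ℝ => (s, z)) ⁻¹' Y) ≠ ⊤ := by
    rw [← hvol]
    exact hPr.measure_lt_top.ne
  refine ⟨?_, ?_⟩
  · simp_rw [hlt]
    exact integrable_toReal_of_lintegral_ne_top hmeas.aemeasurable hfin
  · simp_rw [hlt]
    rw [integral_toReal hmeas.aemeasurable (ae_lt_top hmeas hfin), ← hvol]
    rfl

/-- The reflection of the slices. -/
lemma slice_neg (z : E n) :
    KC.slice (coord u (-ν) ι ⁻¹' Pl V c) z = KC.refl (KC.slice (coord u ν ι ⁻¹' Pl V c) z) := by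
  ext q
  have : coord u (-ν) ι (q.1, q.2, z) = coord u ν ι (q.1, -q.2, z) := by
    simp only [coord]
    rw [smul_neg, neg_smul]
  show coord u (-ν) ι (q.1, q.2, z) ∈ Pl V c ↔ coord u ν ι (q.1, -q.2, z) ∈ Pl V c
  rw [this]

end

/-- FAC. -/
theorem fac : FACStmt := by
  intro n V c u ν ι hV hb hνV hνV' hu huν hu' hν' hgen hmp
  have hν : ‖ν‖ = 1 := hV ν hνV
  have huν2 : inner ℝ u (-ν) = 0 := by rw [inner_neg_right, huν, neg_zero]
  have hν2 : ‖-ν‖ = 1 := by rw [norm_neg, hν]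
  have hν2' : ∀ z, inner ℝ (-ν) (ι z) = 0 := fun z => by rw [inner_neg_left, hν' z, neg_zero]
  have hgen2 : ∀ w ∈ V, w ≠ -ν → w ≠ -(-ν) → inner ℝ u w ≠ 0 := by
    intro w hw h1 h2
    rw [neg_neg] at h2
    exact hgen w hw h2 h1
  have hmp2 : MeasurePreserving (coord u (-ν) ι)
      ((volume : Measure ℝ).prod ((volume : Measure ℝ).prod (volume : Measure (E n)))) volume := by
    have h1 : MeasurePreserving (Prod.map (id : ℝ → ℝ) (Prod.map (fun x : ℝ => -x) (id : E n → E n)))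
        ((volume : Measure ℝ).prod ((volume : Measure ℝ).prod (volume : Measure (E n))))
        ((volume : Measure ℝ).prod ((volume : Measure ℝ).prod (volume : Measure (E n)))) :=
      (MeasurePreserving.id _).prod
        ((Measure.measurePreserving_neg (volume : Measure ℝ)).prod (MeasurePreserving.id _))
    have h2 : coord u (-ν) ι = coord u ν ι ∘
        (Prod.map (id : ℝ → ℝ) (Prod.map (fun x : ℝ => -x) (id : E n → E n))) := by
      funext p
      show p.1 • u + p.2.1 • (-ν) + ι p.2.2 = p.1 • u + (-p.2.1) • ν + ι p.2.2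
      rw [smul_neg, neg_smul]
    rw [h2]
    exact hmp.comp h1
  obtain ⟨a1, a2⟩ := side hb hu hν huν hu' hν' hνV hgen hmp
  obtain ⟨b1, b2⟩ := side hb hu hν2 huν2 hu' hν2' hνV' hgen2 hmp2
  simp_rw [slice_neg] at b1 b2
  refine ⟨a1, b1, a2, b2, fun z => (lt_eq hb hu hν huν hu' hν' hνV hgen z).2, fun z hz => ?_⟩
  have := (lt_eq hb hu hν2 huν2 hu' hν2' hνV' hgen2 z).2
  rw [slice_neg] at this
  have h3 := this hz
  unfold KC.B
  rw [neg_zero, h3]

end PV3.H60
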