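import Pool.Agent.PV3.Stmts

/-!
Squad PV3, module REL: Minkowski's relation and the volume formula.
-/

set_option autoImplicit false

open MeasureTheory Metric Set Filter Topology Pointwise

namespace PV3.H60

open PV PV3

lemma homothety_Pl {n : ℕ} (U : Finset (E n)) (c : E n → ℝ) (p : E n) {t : ℝ} (ht : 0 < t) :
    (Pl U fun w => c w + t * (c w - inner ℝ p w)) = AffineMap.homothety p (1 + t) '' Pl U c := by
  have ht1 : (1 + t) ≠ 0 := by positivity
  ext x
  constructor
  · intro hx
    refine ⟨(1 + t)⁻¹ • (x + t • p), ?_, ?_⟩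
    · intro w hw
      have h1 := hx w hw
      rw [inner_smul_left, inner_add_left, inner_smul_left]
      simp only [conj_trivial]
      rw [inv_mul_le_iff₀ (by positivity)]
      simp only at h1
      nlinarith
    · rw [AffineMap.homothety_apply]
      simp only [vsub_eq_sub, vadd_eq_add]
      rw [smul_sub, smul_smul, mul_inv_cancel₀ ht1, one_smul, add_smul, one_smul]
      abel
  · rintro ⟨y, hy, rfl⟩ w hw
    have h1 := hy w hw
    rw [AffineMap.homothety_apply]
    simp only [vsub_eq_sub, vadd_eq_add]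
    rw [inner_add_left, inner_smul_left, inner_sub_left]
    simp only [conj_trivial]
    nlinarith

/-- REL. -/
theorem rel (h : DERStmt) : RELStmt := by
  intro n U c hU hB hF
  have key : ∀ p ∈ Pl U c, ∑ w ∈ U, fa U c w * (c w - inner ℝ p w) = n * vl (Pl U c) := by
    intro p hp
    have h1 := h n U c (fun w => c w - inner ℝ p w) hU hB hF (fun w hw => sub_nonneg.2 (hp w hw))
    have h2 : ∀ t : ℝ, 0 < t →
        vl (Pl U fun w => c w + t * (c w - inner ℝ p w)) = (1 + t) ^ n * vl (Pl U c) := by
      intro t ht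
      unfold vl
      rw [homothety_Pl U c p ht, Measure.addHaar_image_homothety, ENNReal.toReal_mul,
        ENNReal.toReal_ofReal (abs_nonneg _), finrank_euclideanSpace, Fintype.card_fin,
        abs_of_pos (by positivity)]
    have h3 : HasDerivAt (fun t : ℝ => (1 + t) ^ n * vl (Pl U c)) (n * vl (Pl U c)) 0 := by
      have h4 : HasDerivAt (fun t : ℝ => 1 + t) 1 0 := (hasDerivAt_id (0 : ℝ)).const_add 1
      have h5 := (h4.pow n).mul_const (vl (Pl U c))
      have h6 : (n : ℝ) * (1 + 0) ^ (n - 1) * 1 * vl (Pl U c) = n * vl (Pl U c) := by simp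
      rw [h6] at h5
      exact h5
    rw [hasDerivAt_iff_tendsto_slope_zero] at h3
    have h7 := h3.mono_left (nhdsGT_le_nhdsNE (0 : ℝ))
    refine tendsto_nhds_unique h1 (h7.congr' ?_)
    filter_upwards [self_mem_nhdsWithin] with t ht
    have ht' : (0 : ℝ) < t := ht
    rw [h2 t ht', smul_eq_mul]
    simp only [zero_add, add_zero, one_pow, one_mul]
    rw [div_eq_inv_mul]
  obtain ⟨p, hp⟩ := hF
  have hpP : p ∈ Pl U c := interior_subset hp
  obtain ⟨m, hm⟩ : ∃ m : E n, m = ∑ w ∈ U, fa U c w • w := ⟨_, rfl⟩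
  have hin : ∀ x : E n, ∑ w ∈ U, fa U c w * inner ℝ x w = inner ℝ x m := by
    intro x
    rw [hm, inner_sum]
    refine Finset.sum_congr rfl fun w _ => ?_
    rw [inner_smul_right]
  have hm0 : m = 0 := by
    have hc : Tendsto (fun e : ℝ => p + e • m) (𝓝[>] 0) (𝓝 p) := by
      have : Tendsto (fun e : ℝ => p + e • m) (𝓝[>] 0) (𝓝 (p + (0 : ℝ) • m)) := by
        refine Tendsto.mono_left ?_ nhdsWithin_le_nhds
        refine Continuous.tendsto ?_ _
        fun_prop
      simpa using this
    obtain ⟨e, he, he0⟩ := ((hc.eventually (mem_interior_iff_mem_nhds.1 hp)).and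
      self_mem_nhdsWithin).exists
    have he0' : (0 : ℝ) < e := he0
    have k1 := key p hpP
    have k2 := key (p + e • m) he
    simp only [mul_sub, Finset.sum_sub_distrib, hin] at k1 k2
    rw [inner_add_left, inner_smul_left] at k2
    simp only [conj_trivial] at k2
    have h5 : e * inner ℝ m m = 0 := by linarith
    rcases mul_eq_zero.1 h5 with h6 | h6
    · exact absurd h6 he0'.ne'
    · exact inner_self_eq_zero.1 h6
  refine ⟨by rw [← hm]; exact hm0, ?_⟩
  have k1 := key p hpP
  simp only [mul_sub, Finset.sum_sub_distrib, hin] at k1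
  rw [hm0, inner_zero_right, sub_zero] at k1
  exact k1

end PV3.H60
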